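import Pool.Agent.Lead.NnfDefs

namespace Pool.Agent.Results.MP_5daced_lc.Q1

open Pool.Agent.Lead.Nnf Pool.Agent.Lead.Nnf.NF

/-- The value of a formula in the model `((W, D), θ)`; `D` is the operator `◇`. -/
def val {W : Type} (D : Set W → Set W) (θ : ℕ → Set W) : NF → Set W
  | .pos n => θ n
  | .ngv n => (θ n)ᶜ
  | .bot => ∅
  | .top => Set.univ
  | .and a b => val D θ a ∩ val D θ b
  | .or a b => val D θ a ∪ val D θ b
  | .dia a => D (val D θ a)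
  | .box a => (D (val D θ a)ᶜ)ᶜ

/-- `Z(X)`. -/
def img {W : Type} (Z : W → W → Prop) (X : Set W) : Set W := {y | ∃ x ∈ X, Z x y}

/-- `Z` is a bisimulation between `(W, D)` and itself. -/
def Bisim {W : Type} (D : Set W → Set W) (Z : W → W → Prop) : Prop :=
  (∀ X, img Z (D X) ⊆ D (img Z X)) ∧ ∀ X, img (flip Z) (D X) ⊆ D (img (flip Z) X)

/-- `Z` is a `P`-directed bisimulation from `((W, D), θ₁)` to `((W, D), θ₂)`. -/
def Directed' {W : Type} (D : Set W → Set W) (P : Finset ℕ) (θ₁ θ₂ : ℕ → Set W)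
    (Z : W → W → Prop) : Prop :=
  Bisim D Z ∧ (∀ n, img Z (val D θ₁ (.pos n)) ⊆ val D θ₂ (.pos n)) ∧
    ∀ n, n ∉ P → img Z (val D θ₁ (.ngv n)) ⊆ val D θ₂ (.ngv n)

/-- No literal `¬p` with `p ∈ P` occurs. -/
def PPos (P : Finset ℕ) (a : NF) : Prop := ∀ n ∈ P, (n, false) ∉ a.lits

section
variable {W : Type} {D : Set W → Set W}

lemma pres (hD : Monotone D) {P θ₁ θ₂ Z} (h : Directed' D P θ₁ θ₂ Z) (a : NF) (ha : PPos P a) :
    img Z (val D θ₁ a) ⊆ val D θ₂ a := by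
  induction a with
  | pos n => exact h.2.1 n
  | ngv n => exact h.2.2 n fun hn => ha n hn (by simp [lits])
  | bot => rintro y ⟨x, hx, -⟩; exact hx
  | top => exact Set.subset_univ _
  | and a b iha ihb =>
    rintro y ⟨x, hx, hz⟩
    exact ⟨iha (fun n hn h => ha n hn (by simp [lits, h])) ⟨x, hx.1, hz⟩,
      ihb (fun n hn h => ha n hn (by simp [lits, h])) ⟨x, hx.2, hz⟩⟩
  | or a b iha ihb =>
    rintro y ⟨x, hx | hx, hz⟩
    · exact Or.inl (iha (fun n hn h => ha n hn (by simp [lits, h])) ⟨x, hx, hz⟩)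
    · exact Or.inr (ihb (fun n hn h => ha n hn (by simp [lits, h])) ⟨x, hx, hz⟩)
  | dia a ih => exact (h.1.1 _).trans (hD (ih ha))
  | box a ih =>
    rintro y ⟨x, hx, hz⟩ hy
    refine hx (hD ?_ (h.1.2 _ ⟨y, hy, hz⟩))
    rintro u ⟨v, hv, huv⟩ hu
    exact hv (ih ha ⟨u, hu, huv⟩)

lemma val_congr {θ θ' : ℕ → Set W} (a : NF) (h : ∀ n ∈ a.vars, θ n = θ' n) :
    val D θ a = val D θ' a := by
  induction a with
  | pos n => exact h n (by simp [vars, lits])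
  | ngv n => simp [val, h n (by simp [vars, lits])]
  | bot => rfl
  | top => rfl
  | and a b iha ihb =>
    simp only [vars, lits, Finset.image_union, Finset.mem_union] at h
    simp only [val, iha fun n hn => h n (Or.inl hn), ihb fun n hn => h n (Or.inr hn)]
  | or a b iha ihb =>
    simp only [vars, lits, Finset.image_union, Finset.mem_union] at h
    simp only [val, iha fun n hn => h n (Or.inl hn), ihb fun n hn => h n (Or.inr hn)]
  | dia a ih => simp only [val, ih h]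
  | box a ih => simp only [val, ih h]

def Ok (P S : Finset ℕ) (a : NF) : Prop := PPos P a ∧ a.vars ⊆ S

lemma ok_and {P S a b} (ha : Ok P S a) (hb : Ok P S b) : Ok P S (.and a b) :=
  ⟨fun n hn h => (Finset.mem_union.1 h).elim (ha.1 n hn) (hb.1 n hn), by
    simpa [vars, lits, Finset.image_union, Finset.union_subset_iff] using ⟨ha.2, hb.2⟩⟩

lemma sep {P S : Finset ℕ} {X Y : Set ((ℕ → Set W) × W)} (hX : X.Finite) (hY : Y.Finite)
    (h : ∀ x ∈ X, ∀ y ∈ Y, ∃ a, Ok P S a ∧ x.2 ∈ val D x.1 a ∧ y.2 ∉ val D y.1 a) :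
    ∃ a, Ok P S a ∧ (∀ x ∈ X, x.2 ∈ val D x.1 a) ∧ ∀ y ∈ Y, y.2 ∉ val D y.1 a := by
  induction X, hX using Set.Finite.induction_on with
  | empty => exact ⟨.bot, ⟨by simp [PPos, lits], by simp [vars, lits]⟩, by simp, by simp [val]⟩
  | @insert x X _ _ ih =>
    obtain ⟨a, ha, h1, h2⟩ := ih fun x hx => h x (Or.inr hx)
    have : ∃ b, Ok P S b ∧ x.2 ∈ val D x.1 b ∧ ∀ y ∈ Y, y.2 ∉ val D y.1 b := by
      have h' := h x (Or.inl rfl)
      clear h h2 ih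
      induction Y, hY using Set.Finite.induction_on with
      | empty =>
        exact ⟨.top, ⟨by simp [PPos, lits], by simp [vars, lits]⟩, by simp [val], by simp⟩
      | @insert y Y _ _ ih =>
        obtain ⟨b, hb, h3, h4⟩ := ih fun y hy => h' y (Or.inr hy)
        obtain ⟨c, hc, h5, h6⟩ := h' y (Or.inl rfl)
        refine ⟨.and b c, ok_and hb hc, ⟨h3, h5⟩, ?_⟩
        rintro z (rfl | hz) hh
        exacts [h6 hh.2, h4 z hz hh.1]
    obtain ⟨b, hb, h3, h4⟩ := this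
    refine ⟨.or a b, ok_and ha hb, ?_, fun y hy hh => hh.elim (h2 y hy) (h4 y hy)⟩
    rintro z (rfl | hz)
    exacts [Or.inr h3, Or.inl (h1 z hz)]

end

theorem result (W : Type) [Finite W] (D : Set W → Set W) (hD : Monotone D) (P : Finset ℕ)
    (φ : NF) :
    (∃ ψ, PPos P ψ ∧ ∀ θ, val D θ φ = val D θ ψ) ↔
      ∀ θ₁ θ₂ Z, Directed' D P θ₁ θ₂ Z → img Z (val D θ₁ φ) ⊆ val D θ₂ φ := by
  classical
  constructor
  · rintro ⟨ψ, h1, h2⟩ θ₁ θ₂ Z hZ
    rw [h2, h2]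
    exact pres hD hZ ψ h1
  intro H
  set S := φ.vars
  let ex : (S → Set W) → ℕ → Set W := fun η n => if h : n ∈ S then η ⟨n, h⟩ else ∅
  have fin : ∀ X : Set ((ℕ → Set W) × W), (∀ x ∈ X, x.1 ∈ Set.range ex) → X.Finite := fun X h =>
    ((Set.finite_range ex).prod Set.finite_univ).subset fun x hx => ⟨h x hx, trivial⟩
  have key : ∀ θ₁ ∈ Set.range ex, ∀ θ₂ ∈ Set.range ex, Directed' D P θ₁ θ₂
      (fun x y => ∀ a, Ok P S a → x ∈ val D θ₁ a → y ∈ val D θ₂ a) := by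
    intro θ₁ h₁ θ₂ h₂
    have sp : ∀ A B : Set W, (∀ x ∈ A, ∀ y ∈ B, ¬ ∀ a, Ok P S a → x ∈ val D θ₁ a →
        y ∈ val D θ₂ a) → ∃ a, Ok P S a ∧ A ⊆ val D θ₁ a ∧ B ⊆ (val D θ₂ a)ᶜ := by
      intro A B h
      obtain ⟨a, ha, h3, h4⟩ := sep (D := D) (P := P) (S := S) (X := {θ₁} ×ˢ A) (Y := {θ₂} ×ˢ B)
        (fin _ fun x hx => hx.1 ▸ h₁) (fin _ fun x hx => hx.1 ▸ h₂) (by
          rintro ⟨_, x⟩ ⟨rfl, hx⟩ ⟨_, y⟩ ⟨rfl, hy⟩
          have := h x hx y hy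
          push Not at this
          exact this)
      exact ⟨a, ha, fun x hx => h3 (θ₁, x) ⟨rfl, hx⟩, fun y hy => h4 (θ₂, y) ⟨rfl, hy⟩⟩
    refine ⟨⟨fun X => ?_, fun X => ?_⟩, fun n => ?_, fun n hn => ?_⟩
    · rintro y ⟨x, hx, hz⟩
      obtain ⟨a, ha, h3, h4⟩ := sp X (img _ X)ᶜ fun u hu v hv h => hv ⟨u, hu, h⟩
      exact hD (Set.compl_subset_compl.1 h4) (hz (.dia a) ha (hD h3 hx))
    · rintro x ⟨y, hy, hz⟩
      obtain ⟨a, ha, h3, h4⟩ := sp (img (flip _) X)ᶜ X fun u hu v hv h => hu ⟨v, hv, h⟩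
      by_contra hc
      exact hz (.box a) ha (fun hh => hc (hD (Set.compl_subset_comm.1 h3) hh)) (hD h4 hy)
    · rintro y ⟨x, hx, hz⟩
      by_cases hS : n ∈ S
      · exact hz _ ⟨by simp [PPos, lits], by simpa [vars, lits]⟩ hx
      · obtain ⟨η, rfl⟩ := h₁
        simp [val, ex, hS] at hx
    · rintro y ⟨x, hx, hz⟩
      by_cases hS : n ∈ S
      · refine hz _ ⟨fun m hm h => hn ?_, by simpa [vars, lits]⟩ hx
        simp only [lits, Finset.mem_singleton, Prod.mk.injEq, and_true] at h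
        exact h ▸ hm
      · obtain ⟨η, rfl⟩ := h₂
        simp [val, ex, hS]
  obtain ⟨a, ha, h1, h2⟩ := sep (D := D) (P := P) (S := S)
    (X := {x | x.1 ∈ Set.range ex ∧ x.2 ∈ val D x.1 φ})
    (Y := {x | x.1 ∈ Set.range ex ∧ x.2 ∉ val D x.1 φ})
    (fin _ fun x hx => hx.1) (fin _ fun x hx => hx.1) (by
      intro x hx y hy
      by_contra hc
      push Not at hc
      exact hy.2 (H _ _ _ (key _ hx.1 _ hy.1) ⟨x.2, hx.2, hc⟩))
  refine ⟨a, ha.1, fun θ => ?_⟩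
  have e : ∀ n ∈ S, θ n = ex (fun m => θ m) n := fun n hn => by simp [ex, hn]
  rw [val_congr φ e, val_congr a fun n hn => e n (ha.2 hn)]
  ext w
  refine ⟨fun h => h1 (ex (fun m => θ m), w) ⟨⟨fun m => θ m, rfl⟩, h⟩, fun h => ?_⟩
  by_contra hc
  exact h2 (ex (fun m => θ m), w) ⟨⟨fun m => θ m, rfl⟩, hc⟩ h

end Pool.Agent.Results.MP_5daced_lc.Q1
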